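import Pool.Agent.H998.LT.Defs

set_option autoImplicit false

namespace Pool.Agent.H722.LT

theorem dist_int {x : ℝ} (h : ∀ z : ℤ, x ≠ z) : ∃ d > 0, ∀ z : ℤ, d ≤ |x - z| :=
  ⟨|x - round x|, abs_pos.mpr (sub_ne_zero.mpr (h _)), fun z => round_le x z⟩

theorem gap_one {x : ℝ} (h : ∀ k : ℤ, k ≠ 0 → x ≠ k) :
    ∃ d > 0, ∀ k : ℤ, k ≠ 0 → d ≤ |x - k| := by
  by_cases hx : ∀ z : ℤ, x ≠ z
  · obtain ⟨d, hd, h1⟩ := dist_int hx
    exact ⟨d, hd, fun k _ => h1 k⟩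
  · push Not at hx
    obtain ⟨z, hz⟩ := hx
    have hz0 : z = 0 := by
      by_contra hne
      exact h z hne hz
    subst hz0
    refine ⟨1, one_pos, fun k hk => ?_⟩
    rw [hz, Int.cast_zero, zero_sub, abs_neg]
    exact_mod_cast Int.one_le_abs hk

theorem gap_fin (τ : ℕ → ℝ) (p : ℝ) (h : ∀ l, ∀ k : ℤ, k ≠ 0 → p ≠ k + τ l) (l0 : ℕ) :
    ∃ d > 0, ∀ l < l0, ∀ k : ℤ, k ≠ 0 → d ≤ |p - (k + τ l)| := by
  induction l0 with
  | zero => exact ⟨1, one_pos, fun l hl => absurd hl (Nat.not_lt_zero l)⟩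
  | succ n ih =>
    obtain ⟨d, hd, h1⟩ := ih
    obtain ⟨d', hd', h2⟩ := gap_one (x := p - τ n) (fun k hk hx => h n k hk (by linarith))
    refine ⟨min d d', lt_min hd hd', fun l hl k hk => ?_⟩
    rcases Nat.lt_succ_iff_lt_or_eq.mp hl with hl' | rfl
    · exact (min_le_left _ _).trans (h1 l hl' k hk)
    · refine (min_le_right _ _).trans ((h2 k hk).trans (le_of_eq ?_))
      congr 1
      ring

theorem t_gap : Pool.Agent.H998.LT.S_gap := by
  intro τ t p H hp hτ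
  obtain ⟨d, hd, h1⟩ := dist_int (x := p - t) (fun z hz => hp z (by linarith))
  obtain ⟨l0, hl0⟩ := H (d / 2) (half_pos hd)
  obtain ⟨d', hd', h2⟩ := gap_fin τ p hτ l0
  refine ⟨min (d / 2) d', lt_min (half_pos hd) hd', fun l k hk => ?_⟩
  rcases lt_or_ge l l0 with hl | hl
  · exact (min_le_right _ _).trans (h2 l hl k hk)
  · refine (min_le_left _ _).trans ?_
    obtain ⟨z, hz⟩ := hl0 l hl
    have h3 := h1 (k + z)
    push_cast at h3
    have h4 : p - (k + τ l) = (p - t - (k + z)) - (τ l - t - z) := by ring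
    rw [h4]
    have h5 := abs_sub_abs_le_abs_sub (p - t - (k + z)) (τ l - t - z)
    linarith

end Pool.Agent.H722.LT
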